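import Pool.Agent.Helper77.MX.Mxi
import Pool.Agent.Helper33.MX.Sel

/-! Good times on a nearly minimal path: one-sided slopes at most `W + 1`, derivative at most `W + e`. -/

set_option autoImplicit false

namespace Pool.Agent.Helper77.MX

open MeasureTheory Set Filter Topology

variable {M : ℕ}

/-- the excess of the total weight of the path over `W s` is nondecreasing -/
theorem excess_mono {b W : ℝ} {lam : Fin M → ℝ → ℝ} (hm : ∀ k, MonotoneOn (lam k) (Icc 0 b))
    (hW : ∀ᵐ s ∂(volume.restrict (Ioo 0 b)), W ≤ ∑ k, deriv (lam k) s) :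
    MonotoneOn (fun s => ∑ k, lam k s - W * s) (Icc 0 b) := by
  intro s hs t ht hst
  have hsub : Icc s t ⊆ Icc 0 b := Icc_subset_Icc hs.1 ht.2
  have h1 : ∀ k, IntervalIntegrable (deriv (lam k)) volume s t ∧ ∫ u in s..t, deriv (lam k) u ≤ lam k t - lam k s :=
    fun k => Pool.Agent.Helper33.MX.int_deriv_le hst ((hm k).mono hsub)
  have h2 : W * (t - s) ≤ ∫ u in s..t, ∑ k, deriv (lam k) u := by
    have e1 : ∫ _ in s..t, W = W * (t - s) := by simp [mul_comm]
    rw [← e1]
    apply intervalIntegral.integral_mono_ae_restrict hst (by simp)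
    · have := IntervalIntegrable.sum (μ := volume) (a := s) (b := t) Finset.univ
        (f := fun k => deriv (lam k)) (fun k _ => (h1 k).1)
      exact this.congr (fun u _ => by simp)
    · have h3 : ∀ᵐ u ∂(volume.restrict (Ioo s t)), W ≤ ∑ k, deriv (lam k) u :=
        ae_mono (Measure.restrict_mono (Ioo_subset_Ioo hs.1 ht.2) le_rfl) hW
      have h4 : volume.restrict (Icc s t) = volume.restrict (Ioo s t) :=
        (Measure.restrict_congr_set Ioo_ae_eq_Icc).symm
      rw [h4]
      exact h3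
  have h3 : ∫ u in s..t, ∑ k, deriv (lam k) u = ∑ k, ∫ u in s..t, deriv (lam k) u :=
    intervalIntegral.integral_finsetSum (fun k _ => (h1 k).1)
  have h4 : ∑ k, ∫ u in s..t, deriv (lam k) u ≤ ∑ k, (lam k t - lam k s) :=
    Finset.sum_le_sum fun k _ => (h1 k).2
  rw [Finset.sum_sub_distrib] at h4
  show ∑ k, lam k s - W * s ≤ ∑ k, lam k t - W * t
  rw [h3] at h2
  linarith

/-- the set of bad times: a coordinate is not differentiable, the total rate is more than `W + e`, or some one-sided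
slope to the left is more than `W + 1` -/
def badT (b W e : ℝ) (lam : Fin M → ℝ → ℝ) : Set ℝ :=
  {s | s ∈ Ioo 0 b ∧ ((∃ k, ¬ DifferentiableAt ℝ (lam k) s) ∨ W + e < ∑ k, deriv (lam k) s ∨
    ∃ u ∈ Ico 0 s, (W + 1) * (s - u) < ∑ k, lam k s - ∑ k, lam k u)}

/-- (M2) the bad times have small measure -/
theorem bad_le {b W e : ℝ} (hb : 0 ≤ b) (he : 0 < e) {lam : Fin M → ℝ → ℝ}
    (hm : ∀ k, MonotoneOn (lam k) (Icc 0 b))
    (hW : ∀ᵐ s ∂(volume.restrict (Ioo 0 b)), W ≤ ∑ k, deriv (lam k) s)
    (htot : ∑ k, lam k b - ∑ k, lam k 0 ≤ (W + e * e) * b) :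
    volume (badT b W e lam) ≤ ENNReal.ofReal ((e + e * e) * b) := by
  set h : ℝ → ℝ := fun s => ∑ k, lam k s - W * s with hh
  have hmono : MonotoneOn h (Icc 0 b) := excess_mono hm hW
  have hmass : h b - h 0 ≤ e * e * b := by
    simp only [hh]
    linarith
  have hmass0 : 0 ≤ h b - h 0 := sub_nonneg.mpr (hmono ⟨le_rfl, hb⟩ ⟨hb, le_rfl⟩ hb)
  have hdiff : ∀ᵐ s ∂volume, s ∈ Ioo 0 b → ∀ k, DifferentiableAt ℝ (lam k) s := by
    have h1 : ∀ k, ∀ᵐ s ∂volume, s ∈ Ioo 0 b → DifferentiableAt ℝ (lam k) s := by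
      intro k
      filter_upwards [(hm k).ae_differentiableWithinAt_of_mem] with s hs hs'
      exact (hs (Ioo_subset_Icc_self hs')).differentiableAt (Icc_mem_nhds hs'.1 hs'.2)
    have h2 := ae_all_iff.mpr h1
    filter_upwards [h2] with s hs hs' k
    exact hs k hs'
  set N : Set ℝ := {s | ¬ (s ∈ Ioo 0 b → ∀ k, DifferentiableAt ℝ (lam k) s)} with hN
  have hN0 : volume N = 0 := hdiff
  set E1 : Set ℝ := {s : ℝ | s ∈ Ioo 0 b ∧ ∃ u ∈ Ico 0 s, 1 * (s - u) < h s - h u} with hE1
  have hE1le : volume E1 ≤ ENNReal.ofReal (e * e * b) := by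
    refine (rising hb one_pos hmono).trans (ENNReal.ofReal_le_ofReal ?_)
    rw [div_one]
    exact hmass
  set E2 : Set ℝ := Ioo 0 b ∩ {s | e ≤ deriv h s} with hE2
  have hE2m : MeasurableSet E2 := measurableSet_Ioo.inter ((measurable_deriv h) measurableSet_Ici)
  have hE2le : volume E2 ≤ ENNReal.ofReal (e * b) := by
    have hfin : volume E2 ≠ ⊤ := ((measure_mono inter_subset_left).trans_lt (by simp)).ne
    obtain ⟨hI, hIle⟩ := Pool.Agent.Helper33.MX.int_deriv_le hb hmono
    have hnn : ∀ s ∈ Ioo 0 b, 0 ≤ deriv h s := by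
      intro s hs
      by_cases hd : DifferentiableAt ℝ h s
      · have h1 : 0 ≤ derivWithin h (Icc 0 b) s := hmono.derivWithin_nonneg
        rwa [derivWithin_of_mem_nhds (Icc_mem_nhds hs.1 hs.2)] at h1
      · rw [deriv_zero_of_not_differentiableAt hd]
    have hZi0 : IntervalIntegrable (fun s => E2.indicator (fun _ => e) s) volume 0 b := by
      rw [intervalIntegrable_iff, uIoc_of_le hb]
      exact (integrable_const (μ := volume.restrict (Ioc 0 b)) e).indicator hE2m
    have h1 : ∫ s in (0:ℝ)..b, E2.indicator (fun _ => e) s ≤ ∫ s in (0:ℝ)..b, deriv h s := by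
      apply intervalIntegral.integral_mono_ae_restrict hb hZi0 hI
      have h4 : volume.restrict (Icc 0 b) = volume.restrict (Ioo (0:ℝ) b) :=
        (Measure.restrict_congr_set Ioo_ae_eq_Icc).symm
      rw [h4]
      refine (ae_restrict_iff' measurableSet_Ioo).mpr (Eventually.of_forall fun s hs => ?_)
      show E2.indicator (fun _ => e) s ≤ deriv h s
      by_cases hz : s ∈ E2
      · rw [indicator_of_mem hz]
        exact hz.2
      · rw [indicator_of_notMem hz]
        exact hnn s hs
    have h2 : ∫ s in (0:ℝ)..b, E2.indicator (fun _ => e) s = e * (volume E2).toReal := by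
      rw [intervalIntegral.integral_of_le hb, integral_indicator hE2m, setIntegral_const,
        measureReal_restrict_apply hE2m]
      have : E2 ∩ Ioc 0 b = E2 := inter_eq_left.mpr (fun s hs => Ioo_subset_Ioc_self hs.1)
      rw [this, smul_eq_mul, mul_comm]
      rfl
    rw [← ENNReal.ofReal_toReal hfin]
    apply ENNReal.ofReal_le_ofReal
    have h3 : e * (volume E2).toReal ≤ e * (e * b) := by
      rw [← h2]
      calc _ ≤ _ := h1
        _ ≤ _ := hIle
        _ ≤ e * e * b := hmass
        _ = e * (e * b) := by ring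
    exact le_of_mul_le_mul_left h3 he
  have hsub : badT b W e lam ⊆ N ∪ (E1 ∪ E2) := by
    rintro s ⟨hs, hor⟩
    by_cases hd : ∀ k, DifferentiableAt ℝ (lam k) s
    · right
      rcases hor with ⟨k, hk⟩ | h1 | ⟨u, hu, h1⟩
      · exact absurd (hd k) hk
      · right
        refine ⟨hs, ?_⟩
        have h2 : HasDerivAt h (∑ k, deriv (lam k) s - W) s := by
          have h3 : HasDerivAt (fun s => ∑ k, lam k s) (∑ k, deriv (lam k) s) s :=
            HasDerivAt.fun_sum fun k _ => (hd k).hasDerivAt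
          have h4 : HasDerivAt (fun s : ℝ => W * s) W s := by
            simpa using (hasDerivAt_id s).const_mul W
          exact h3.sub h4
        show e ≤ deriv h s
        rw [h2.deriv]
        linarith
      · left
        refine ⟨hs, u, hu, ?_⟩
        show 1 * (s - u) < (∑ k, lam k s - W * s) - (∑ k, lam k u - W * u)
        nlinarith
    · left
      intro hc
      exact hd (hc hs)
  calc volume (badT b W e lam) ≤ volume (N ∪ (E1 ∪ E2)) := measure_mono hsub
    _ ≤ volume N + (volume E1 + volume E2) :=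
        (measure_union_le _ _).trans (add_le_add le_rfl (measure_union_le _ _))
    _ ≤ 0 + (ENNReal.ofReal (e * e * b) + ENNReal.ofReal (e * b)) := by
        rw [hN0]
        gcongr
    _ = ENNReal.ofReal ((e + e * e) * b) := by
        rw [zero_add, ← ENNReal.ofReal_add (by positivity) (by positivity)]
        congr 1
        ring

/-- (M3) choice of a good time inside a set of full measure -/
theorem exists_good {b W e : ℝ} (hb : 0 < b) (he : 0 < e) (he1 : e + e * e < 1) {lam : Fin M → ℝ → ℝ}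
    (hm : ∀ k, MonotoneOn (lam k) (Icc 0 b))
    (hW : ∀ᵐ s ∂(volume.restrict (Ioo 0 b)), W ≤ ∑ k, deriv (lam k) s)
    (htot : ∑ k, lam k b - ∑ k, lam k 0 ≤ (W + e * e) * b) {A : Set ℝ}
    (hA : ∀ᵐ s ∂(volume.restrict (Ioo 0 b)), s ∈ A) :
    ∃ s ∈ Ioo 0 b, s ∈ A ∧ (∀ k, DifferentiableAt ℝ (lam k) s) ∧ ∑ k, deriv (lam k) s ≤ W + e ∧
      ∀ u ∈ Ico 0 s, ∑ k, lam k s - ∑ k, lam k u ≤ (W + 1) * (s - u) := by
  by_contra hcon
  push Not at hcon
  have h1 : Ioo 0 b ⊆ badT b W e lam ∪ (Ioo 0 b ∩ Aᶜ) := by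
    intro s hs
    by_cases hsA : s ∈ A
    · left
      refine ⟨hs, ?_⟩
      by_cases hd : ∀ k, DifferentiableAt ℝ (lam k) s
      · right
        by_cases h2 : ∑ k, deriv (lam k) s ≤ W + e
        · right
          exact hcon s hs hsA hd h2
        · left
          exact not_le.mp h2
      · left
        push Not at hd
        exact hd
    · right
      exact ⟨hs, hsA⟩
  have h2 : volume (Ioo 0 b ∩ Aᶜ) = 0 := by
    have := (ae_restrict_iff' (μ := volume) measurableSet_Ioo).mp hA
    have h3 : {s | ¬ (s ∈ Ioo 0 b → s ∈ A)} = Ioo 0 b ∩ Aᶜ := by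
      ext s
      simp [and_assoc]
    rw [← h3]
    exact this
  have h3 : volume (Ioo 0 b) ≤ ENNReal.ofReal ((e + e * e) * b) := by
    calc volume (Ioo 0 b) ≤ volume (badT b W e lam ∪ (Ioo 0 b ∩ Aᶜ)) := measure_mono h1
      _ ≤ volume (badT b W e lam) + volume (Ioo 0 b ∩ Aᶜ) := measure_union_le _ _
      _ ≤ ENNReal.ofReal ((e + e * e) * b) + 0 := by
          rw [h2]
          gcongr
          exact bad_le hb.le he hm hW htot
      _ = _ := add_zero _
  rw [Real.volume_Ioo, sub_zero] at h3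
  have h4 : b ≤ (e + e * e) * b := by
    rwa [ENNReal.ofReal_le_ofReal_iff (by positivity)] at h3
  nlinarith

end Pool.Agent.Helper77.MX
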