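import Mathlib

/-! One-sided maximal inequality for monotone functions (rising sun) and the choice of a good time on a nearly
minimal path (ns_notes_94 (C)(3), uniform complexity of the frames). Pure real analysis. -/

set_option autoImplicit false

namespace Pool.Agent.Helper77.MX

open MeasureTheory Set Filter Topology

/-- the running maximum of `L s - h s` -/
noncomputable def rsG (h : ℝ → ℝ) (L s : ℝ) : ℝ := sSup ((fun u => L * u - h u) '' Icc 0 s)

theorem rsG_bdd {h : ℝ → ℝ} {L b s : ℝ} (hL : 0 ≤ L) (hh : MonotoneOn h (Icc 0 b)) (hs : s ≤ b) :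
    BddAbove ((fun u => L * u - h u) '' Icc 0 s) := by
  refine ⟨L * b - h 0, ?_⟩
  rintro _ ⟨u, hu, rfl⟩
  have h1 : h 0 ≤ h u := hh ⟨le_rfl, hu.1.trans (hu.2.trans hs)⟩ ⟨hu.1, hu.2.trans hs⟩ hu.1
  have h2 : L * u ≤ L * b := mul_le_mul_of_nonneg_left (hu.2.trans hs) hL
  show L * u - h u ≤ L * b - h 0
  linarith

theorem le_rsG {h : ℝ → ℝ} {L b s u : ℝ} (hL : 0 ≤ L) (hh : MonotoneOn h (Icc 0 b)) (hs : s ≤ b)
    (hu : u ∈ Icc 0 s) : L * u - h u ≤ rsG h L s :=
  le_csSup (rsG_bdd hL hh hs) ⟨u, hu, rfl⟩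

theorem rsG_le {h : ℝ → ℝ} {L s C : ℝ} (hs : 0 ≤ s) (hC : ∀ u ∈ Icc 0 s, L * u - h u ≤ C) : rsG h L s ≤ C := by
  apply csSup_le
  · exact ⟨_, 0, ⟨le_rfl, hs⟩, rfl⟩
  · rintro _ ⟨u, hu, rfl⟩
    exact hC u hu

theorem rsG_mono {h : ℝ → ℝ} {L b s s' : ℝ} (hL : 0 ≤ L) (hh : MonotoneOn h (Icc 0 b)) (h0 : 0 ≤ s) (hs : s ≤ s')
    (hb : s' ≤ b) : rsG h L s ≤ rsG h L s' :=
  rsG_le h0 fun _ hu => le_rsG hL hh hb ⟨hu.1, hu.2.trans hs⟩

theorem rsG_lip {h : ℝ → ℝ} {L b s s' : ℝ} (hL : 0 ≤ L) (hh : MonotoneOn h (Icc 0 b)) (h0 : 0 ≤ s) (hs : s ≤ s')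
    (hb : s' ≤ b) : rsG h L s' ≤ rsG h L s + L * (s' - s) := by
  refine rsG_le (h0.trans hs) fun u hu => ?_
  rcases le_total u s with hus | hus
  · have := le_rsG hL hh (hs.trans hb) (u := u) ⟨hu.1, hus⟩
    have h2 : 0 ≤ L * (s' - s) := mul_nonneg hL (by linarith)
    linarith
  · have h1 := le_rsG hL hh (hs.trans hb) (u := s) ⟨h0, le_rfl⟩
    have h2 : h s ≤ h u := hh ⟨h0, hs.trans hb⟩ ⟨hu.1, hu.2.trans hb⟩ hus
    have h3 : L * u ≤ L * s' := mul_le_mul_of_nonneg_left hu.2 hL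
    nlinarith

/-- where `L s - h s` is below its running maximum, the running maximum is constant to the right -/
theorem rsG_const {h : ℝ → ℝ} {L b s : ℝ} (hL : 0 < L) (hh : MonotoneOn h (Icc 0 b)) (h0 : 0 ≤ s) (hsb : s < b)
    (hlt : L * s - h s < rsG h L s) :
    ∃ d > 0, ∀ u ∈ Icc s (s + d), rsG h L u = rsG h L s := by
  set gap : ℝ := rsG h L s - (L * s - h s) with hgap
  have hg : 0 < gap := by rw [hgap]; linarith
  refine ⟨min (gap / L) (b - s), lt_min (div_pos hg hL) (by linarith), fun u hu => ?_⟩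
  have hub : u ≤ b := hu.2.trans (by linarith [min_le_right (gap / L) (b - s)])
  apply le_antisymm _ (rsG_mono hL.le hh h0 hu.1 hub)
  refine rsG_le (h0.trans hu.1) fun v hv => ?_
  rcases le_total v s with hvs | hvs
  · exact le_rsG hL.le hh hsb.le ⟨hv.1, hvs⟩
  · have h2 : h s ≤ h v := hh ⟨h0, hsb.le⟩ ⟨hv.1, hv.2.trans hub⟩ hvs
    have h3 : v - s ≤ gap / L := by
      have := hv.2.trans hu.2
      linarith [min_le_left (gap / L) (b - s)]
    have h4 : L * (v - s) ≤ gap := by
      calc L * (v - s) ≤ L * (gap / L) := mul_le_mul_of_nonneg_left h3 hL.le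
        _ = gap := by field_simp
    rw [hgap] at h4
    nlinarith

/-- (M1) one-sided maximal inequality -/
theorem rising {h : ℝ → ℝ} {L b : ℝ} (hb : 0 ≤ b) (hL : 0 < L) (hh : MonotoneOn h (Icc 0 b)) :
    volume {s : ℝ | s ∈ Ioo 0 b ∧ ∃ u ∈ Ico 0 s, L * (s - u) < h s - h u} ≤ ENNReal.ofReal ((h b - h 0) / L) := by
  set G : ℝ → ℝ := rsG h L with hG
  have hmonoG : MonotoneOn G (Icc 0 b) := fun s hs s' hs' hss =>
    rsG_mono hL.le hh hs.1 hss hs'.2
  have hlipG : LipschitzOnWith (Real.toNNReal L) G (Icc 0 b) := by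
    apply LipschitzOnWith.of_dist_le_mul
    intro x hx y hy
    rw [Real.coe_toNNReal _ hL.le, Real.dist_eq, Real.dist_eq]
    rcases le_total x y with hxy | hxy
    · have h1 := rsG_lip hL.le hh hx.1 hxy hy.2
      have h2 := hmonoG hx hy hxy
      rw [abs_sub_comm, abs_of_nonneg (by linarith), abs_sub_comm, abs_of_nonneg (by linarith)]
      show rsG h L y - rsG h L x ≤ _
      linarith
    · have h1 := rsG_lip hL.le hh hy.1 hxy hx.2
      have h2 := hmonoG hy hx hxy
      rw [abs_of_nonneg (by linarith), abs_of_nonneg (by linarith)]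
      show rsG h L x - rsG h L y ≤ _
      linarith
  have hac : AbsolutelyContinuousOnInterval G 0 b := by
    apply LipschitzOnWith.absolutelyContinuousOnInterval (K := Real.toNNReal L)
    rwa [uIcc_of_le hb]
  have hint : ∫ s in (0:ℝ)..b, deriv G s = G b - G 0 := hac.integral_deriv_eq_sub
  have hae : ∀ᵐ s ∂volume, s ∈ Ioo 0 b → DifferentiableAt ℝ G s := by
    have := hmonoG.ae_differentiableWithinAt_of_mem
    filter_upwards [this] with s hs hs'
    exact (hs (Ioo_subset_Icc_self hs')).differentiableAt (Icc_mem_nhds hs'.1 hs'.2)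
  set E : Set ℝ := {s : ℝ | s ∈ Ioo 0 b ∧ ∃ u ∈ Ico 0 s, L * (s - u) < h s - h u} with hE
  set Z : Set ℝ := Ioo 0 b ∩ {s | deriv G s = 0} with hZ
  have hZm : MeasurableSet Z := measurableSet_Ioo.inter ((measurable_deriv G) (measurableSet_singleton 0))
  have hEZ : ∀ᵐ s ∂volume, s ∈ E → s ∈ Z := by
    filter_upwards [hae] with s hs hsE
    obtain ⟨hs1, u, hu, hlt⟩ := hsE
    refine ⟨hs1, ?_⟩
    have h1 : L * s - h s < rsG h L s := by
      have := le_rsG hL.le hh hs1.2.le (u := u) ⟨hu.1, hu.2.le⟩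
      linarith
    obtain ⟨d, hd, hcst⟩ := rsG_const hL hh hs1.1.le hs1.2 h1
    have h2 : HasDerivAt G (deriv G s) s := (hs hs1).hasDerivAt
    have h3 : HasDerivWithinAt G (deriv G s) (Icc s (s + d)) s := h2.hasDerivWithinAt
    have h4 : HasDerivWithinAt G 0 (Icc s (s + d)) s := by
      refine (hasDerivWithinAt_const s (Icc s (s + d)) (G s)).congr (fun v hv => hcst v hv) rfl
    have hu2 : UniqueDiffWithinAt ℝ (Icc s (s + d)) s :=
      uniqueDiffOn_Icc (by linarith) s ⟨le_rfl, by linarith⟩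
    exact hu2.eq_deriv _ h3 h4
  have hEle : volume E ≤ volume Z := measure_mono_ae hEZ
  refine hEle.trans ?_
  -- the integral of the derivative
  have hderle : ∀ s ∈ Ioo 0 b, deriv G s ≤ L := by
    intro s hs
    by_cases hd : DifferentiableAt ℝ G s
    · have h1 : ‖deriv G s‖ ≤ (Real.toNNReal L : ℝ) :=
        norm_deriv_le_of_lipschitzOn (Icc_mem_nhds hs.1 hs.2) hlipG
      rw [Real.coe_toNNReal _ hL.le] at h1
      exact (le_abs_self _).trans h1
    · rw [deriv_zero_of_not_differentiableAt hd]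
      exact hL.le
  have hZfin : volume Z ≠ ⊤ := ((measure_mono inter_subset_left).trans_lt (by simp)).ne
  have hI : IntervalIntegrable (deriv G) volume 0 b := by
    have h1 : MonotoneOn G (uIcc 0 b) := by rwa [uIcc_of_le hb]
    exact h1.intervalIntegrable_deriv
  have hZi0 : IntervalIntegrable (fun s => Z.indicator (fun _ => L) s) volume 0 b := by
    rw [intervalIntegrable_iff, uIoc_of_le hb]
    exact (integrable_const (μ := volume.restrict (Ioc 0 b)) L).indicator hZm
  have hupper : ∫ s in (0:ℝ)..b, deriv G s ≤ ∫ s in (0:ℝ)..b, (L - Z.indicator (fun _ => L) s) := by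
    have hZi : IntervalIntegrable (fun s => L - Z.indicator (fun _ => L) s) volume 0 b :=
      IntervalIntegrable.sub (by simp) hZi0
    apply intervalIntegral.integral_mono_ae_restrict hb hI hZi
    have h4 : volume.restrict (Icc 0 b) = volume.restrict (Ioo (0:ℝ) b) :=
      (Measure.restrict_congr_set Ioo_ae_eq_Icc).symm
    rw [h4]
    refine (ae_restrict_iff' measurableSet_Ioo).mpr (Eventually.of_forall fun s hs => ?_)
    show deriv G s ≤ L - Z.indicator (fun _ => L) s
    by_cases hz : s ∈ Z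
    · rw [indicator_of_mem hz, hz.2]
      simp
    · rw [indicator_of_notMem hz, sub_zero]
      exact hderle s hs
  have hval : ∫ s in (0:ℝ)..b, (L - Z.indicator (fun _ => L) s) = L * b - L * (volume Z).toReal := by
    rw [intervalIntegral.integral_sub (by simp) hZi0]
    congr 1
    · simp [mul_comm]
    · rw [intervalIntegral.integral_of_le hb, integral_indicator hZm, setIntegral_const,
        measureReal_restrict_apply hZm]
      have : Z ∩ Ioc 0 b = Z := inter_eq_left.mpr (fun s hs => Ioo_subset_Ioc_self hs.1)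
      rw [this, smul_eq_mul, mul_comm]
      rfl
  have hGb : L * b - h b ≤ G b := le_rsG hL.le hh le_rfl ⟨hb, le_rfl⟩
  have hG0 : G 0 ≤ - h 0 := by
    refine rsG_le le_rfl fun u hu => ?_
    have : u = 0 := le_antisymm hu.2 hu.1
    rw [this]
    simp
  have key : L * (volume Z).toReal ≤ h b - h 0 := by
    rw [hint, hval] at hupper
    linarith
  rw [← ENNReal.ofReal_toReal hZfin]
  apply ENNReal.ofReal_le_ofReal
  rw [le_div_iff₀ hL]
  linarith

end Pool.Agent.Helper77.MX
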